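import Pool.Agent.H14.SapM4

set_option autoImplicit false

namespace Pool.Agent.Results.MP_557f7f_co.Super

open Matrix Polynomial Pool.Agent.H14.Sap

def S (s : SignType) : Matrix (Fin 6) (Fin 6) SignType :=
  !![1, 1, -1, s, 0, 0; -1, -1, 1, 0, 0, 0; 0, 0, 0, -1, 0, 0; 1, 1, 0, 0, 0, 0;
    0, 0, 0, 0, 1, 1; 0, 0, 0, 0, -1, -1]

def blk (P : Matrix (Fin 4) (Fin 4) ℝ) (Q : Matrix (Fin 2) (Fin 2) ℝ) : Matrix (Fin 6) (Fin 6) ℝ :=
  reindex finSumFinEquiv finSumFinEquiv (fromBlocks P 0 0 Q)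

theorem blk_cp (P : Matrix (Fin 4) (Fin 4) ℝ) (Q : Matrix (Fin 2) (Fin 2) ℝ) :
    (blk P Q).charpoly = P.charpoly * Q.charpoly := by
  rw [blk, charpoly_reindex, charpoly_fromBlocks_zero₁₂]

theorem blk_eq (a b c d e f g h k w p q r s : ℝ) : blk (m4 a b c d e f g h k w) (t2 p q r s) =
    !![a, b, -c, w, 0, 0; -d, -e, f, 0, 0, 0; 0, 0, 0, -g, 0, 0; h, k, 0, 0, 0, 0;
      0, 0, 0, 0, p, q; 0, 0, 0, 0, -r, -s] := by
  ext i j; fin_cases i <;> fin_cases j <;> rfl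

def Good (u v u' v' : ℝ) : Prop := 0 < v * v' ∨ (v * v' = 0 ∧ u * v' + u' * v ≠ 0) ∨
  (v * v' = 0 ∧ u * v' + u' * v = 0 ∧ 4 * (v + v' + u * u') ≤ (u + u') ^ 2)

theorem make (u v u' v' u'' v'' : ℝ) (h : Good u v u' v') : ∃ A, Realizes (S 0) A ∧
    A.charpoly = (X ^ 2 + C u * X + C v) * (X ^ 2 + C u' * X + C v') * (X ^ 2 + C u'' * X + C v'') := by
  obtain ⟨a, b, c, d, e, f, g, h, k, _, _, _, _, _, _, _, _, _, h1⟩ := real_m4 _ _ _ _ h
  obtain ⟨p, q, r, s, _, _, _, _, h2⟩ := real_t2 u'' v''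
  refine ⟨blk (m4 a b c d e f g h k 0) (t2 p q r s), ?_, ?_⟩
  · rw [blk_eq]
    intro i j; fin_cases i <;> fin_cases j <;> simp [S, *]
  · rw [blk_cp, h1, h2]
    simp only [C_add, C_mul]; ring

theorem zero_good (u u' v' : ℝ) (h : v' ≤ 0 ∨ u ≠ 0) : Good u 0 u' v' := by
  by_cases h1 : u * v' = 0
  · refine Or.inr (Or.inr ⟨by ring, by linarith, ?_⟩)
    rcases h with h | h
    · nlinarith [sq_nonneg (u - u')]
    · rw [(mul_eq_zero.mp h1).resolve_left h]; nlinarith [sq_nonneg (u - u')]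
  · exact Or.inr (Or.inl ⟨by ring, by simpa using h1⟩)

theorem pick (u v u' v' u'' v'' : ℝ) : Good u v u' v' ∨ Good u' v' u v ∨ Good u v u'' v'' ∨
    Good u'' v'' u v ∨ Good u' v' u'' v'' ∨ Good u'' v'' u' v' := by
  rcases lt_trichotomy v 0 with a | rfl | a <;> rcases lt_trichotomy v' 0 with b | rfl | b <;>
    rcases lt_trichotomy v'' 0 with c | rfl | c <;>
    first
    | exact Or.inl (Or.inl (by first | positivity | exact mul_pos_of_neg_of_neg a b))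
    | exact Or.inr (Or.inr (Or.inl (Or.inl (by first | positivity | exact mul_pos_of_neg_of_neg a c))))
    | exact Or.inr (Or.inr (Or.inr (Or.inr (Or.inl (Or.inl
        (by first | positivity | exact mul_pos_of_neg_of_neg b c))))))
    | exact Or.inl (zero_good _ _ _ (Or.inl (by linarith)))
    | exact Or.inr (Or.inl (zero_good _ _ _ (Or.inl (by linarith))))
    | exact Or.inr (Or.inr (Or.inl (zero_good _ _ _ (Or.inl (by linarith)))))
    | exact Or.inr (Or.inr (Or.inr (Or.inl (zero_good _ _ _ (Or.inl (by linarith))))))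
    | exact Or.inr (Or.inr (Or.inr (Or.inr (Or.inl (zero_good _ _ _ (Or.inl (by linarith)))))))
    | exact Or.inr (Or.inr (Or.inr (Or.inr (Or.inr (zero_good _ _ _ (Or.inl (by linarith)))))))

theorem result : ∃ (n : ℕ) (S T : Matrix (Fin n) (Fin n) SignType), SAP S ∧ Super S T ∧ ¬ SAP T := by
  refine ⟨6, S 0, S 1, fun p hm hd => ?_, by unfold Super; decide, fun H => ?_⟩
  · obtain ⟨f1, g, h1, hg, rfl⟩ :=
      IsMonicOfDegree.eq_isMonicOfDegree_two_mul_isMonicOfDegree (f := p) (n := 4) ⟨hd, hm⟩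
    obtain ⟨f2, f3, h2, h3, rfl⟩ := hg.eq_isMonicOfDegree_two_mul_isMonicOfDegree (n := 2)
    obtain ⟨u, v, rfl⟩ := isMonicOfDegree_two_iff.mp h1
    obtain ⟨u', v', rfl⟩ := isMonicOfDegree_two_iff.mp h2
    obtain ⟨u'', v'', rfl⟩ := isMonicOfDegree_two_iff.mp h3
    rcases pick u v u' v' u'' v'' with h | h | h | h | h | h
    · obtain ⟨A, a, b⟩ := make _ _ _ _ u'' v'' h; exact ⟨A, a, by rw [b]; ring⟩
    · obtain ⟨A, a, b⟩ := make _ _ _ _ u'' v'' h; exact ⟨A, a, by rw [b]; ring⟩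
    · obtain ⟨A, a, b⟩ := make _ _ _ _ u' v' h; exact ⟨A, a, by rw [b]; ring⟩
    · obtain ⟨A, a, b⟩ := make _ _ _ _ u' v' h; exact ⟨A, a, by rw [b]; ring⟩
    · obtain ⟨A, a, b⟩ := make _ _ _ _ u v h; exact ⟨A, a, by rw [b]; ring⟩
    · obtain ⟨A, a, b⟩ := make _ _ _ _ u v h; exact ⟨A, a, by rw [b]; ring⟩
  · obtain ⟨A, hA, hc⟩ := H (X ^ 6) (monic_X_pow 6) (natDegree_X_pow 6)
    have z : ∀ i j, S 1 i j = 0 → A i j = 0 := fun i j h => sign_eq_zero_iff.mp ((hA i j).trans h)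
    have ps : ∀ i j, S 1 i j = 1 → 0 < A i j := fun i j h => sign_eq_one_iff.mp ((hA i j).trans h)
    have ng : ∀ i j, S 1 i j = -1 → 0 < -A i j := fun i j h =>
      neg_pos.mpr (sign_eq_neg_one_iff.mp ((hA i j).trans h))
    have e : A = blk (m4 (A 0 0) (A 0 1) (-A 0 2) (-A 1 0) (-A 1 1) (A 1 2) (-A 2 3) (A 3 0) (A 3 1)
        (A 0 3)) (t2 (A 4 4) (A 4 5) (-A 5 4) (-A 5 5)) := by
      rw [blk_eq]
      ext i j; fin_cases i <;> fin_cases j <;> first | rfl | exact z _ _ rfl | exact (neg_neg _).symm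
    rw [e, blk_cp] at hc
    obtain ⟨i, -, hi⟩ := (dvd_prime_pow prime_X 6).mp ⟨_, hc.symm⟩
    have h1 := eq_of_monic_of_associated (charpoly_monic _) (monic_X_pow i) hi
    have h2 := congrArg natDegree h1
    rw [charpoly_natDegree_eq_dim, natDegree_X_pow, Fintype.card_fin] at h2
    subst h2
    exact not_nil _ _ _ _ _ _ _ _ _ _ (ps 0 0 rfl) (ng 0 2 rfl) (ps 1 2 rfl) (ng 2 3 rfl) (ps 3 0 rfl)
      (ps 3 1 rfl) (ps 0 3 rfl) h1

end Pool.Agent.Results.MP_557f7f_co.Super
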